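import Pool.Agent.Work.MP_db9399_oc_helper27.LrgCnt

/-!
# MP_db9399, OCB4, block LRG: polynomial bounds for the dependencies (helper31)
-/

set_option autoImplicit false

namespace Pool.Agent.Work.MP_db9399_oc_helper31

open Finset Classical
open Pool.Agent.Work.MP_db9399_all (nb)
open Pool.Agent.Work.MP_db9399_da hiding qV
open Pool.Agent.Work.MP_db9399_xf
open Pool.Agent.Work.MP_db9399_oc
open Pool.Agent.Work.MP_db9399_oc_helper27

universe u

section
variable {V : Type u} [Fintype V] {N J : ℕ} {k : Con} {c' : ℝ} {D : OD V N J}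
  {q : Fin N → Bool → Bool → ℕ → ℕ} {A : Gm D → Finset V} {y : ℝ}

theorem d_big (h : Cx k c' D q A y) : 10 ^ 6 ≤ D.d := by
  have h1 := h.y1
  have h2 := h.yd
  have h3 : y ≤ y ^ 16 := by
    have : y ^ 1 ≤ y ^ 16 := pow_le_pow_right₀ (by linarith) (by norm_num)
    simpa using this
  have h4 : (10 ^ 6 : ℝ) ≤ D.d := by linarith
  exact_mod_cast h4

theorem pV_le (hk : k.Ok) (h : Cx k c' D q A y) (n : Fin N) :
    (pV D.X.P n).card ≤ D.d ^ 2 := by
  rcases (pV D.X.P n).eq_empty_or_nonempty with he | ⟨v, hv⟩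
  · rw [he]; simp
  · rw [mem_pV] at hv
    obtain ⟨kk, hkk⟩ := Option.ne_none_iff_exists'.1 (h.H.pc.cln v hv.1)
    have h1 : ((pV D.X.P n).card : ℝ) ≤ k.C * D.d := by
      refine le_trans ?_ (h.H.pc.clc kk)
      have : pV D.X.P n ⊆ univ.filter (fun v => D.X.cq v = some kk) := by
        intro w hw
        rw [mem_pV] at hw
        rw [mem_filter]
        refine ⟨mem_univ _, ?_⟩
        rw [← hkk]
        exact h.H.pc.clp w v hw.1 hv.1 (hw.2.trans hv.2.symm)
      exact_mod_cast card_le_card this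
    have h2 : k.C * (D.d : ℝ) ≤ (D.d : ℝ) * D.d :=
      mul_le_mul_of_nonneg_right h.Cd (by positivity)
    have h3 : ((pV D.X.P n).card : ℝ) ≤ (D.d : ℝ) ^ 2 := by
      rw [pow_two]; linarith
    exact_mod_cast h3

theorem A_le (hk : k.Ok) (h : Cx k c' D q A y) (γ : Gm D) : (A γ).card ≤ D.d ^ 2 := by
  refine le_trans (card_le_card ?_) (pV_le hk h γ.pn)
  intro v hv
  have := h.mem hv
  rw [mem_pV]
  exact ⟨this.1, this.2.1⟩

/-- the groups of colour `b` with `w` in the list: at most one -/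
theorem one_group (h : Cx k c' D q A y) (b : ℕ) (w : V) :
    (univ.filter (fun γ : Gm D => γ.cb = b ∧ w ∈ A γ)).card ≤ 1 := by
  rw [card_le_one]
  intro γ hγ γ' hγ'
  rw [mem_filter] at hγ hγ'
  exact h.uniq hγ.2.2 hγ'.2.2 (hγ.2.1.trans hγ'.2.1.symm)

theorem two_step (h : Cx k c' D q A y) (b : ℕ) (B : Finset V) (hB : B.card ≤ D.d ^ 2) :
    (B.biUnion (fun v => (nb D.G v).biUnion (fun w =>
      univ.filter (fun γ : Gm D => γ.cb = b ∧ w ∈ A γ)))).card ≤ D.d ^ 3 := by
  calc _ ≤ ∑ v ∈ B, ((nb D.G v).biUnion (fun w =>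
      univ.filter (fun γ : Gm D => γ.cb = b ∧ w ∈ A γ))).card := card_biUnion_le
    _ ≤ ∑ v ∈ B, D.d := by
        apply sum_le_sum
        intro v _
        calc _ ≤ ∑ w ∈ nb D.G v, (univ.filter (fun γ : Gm D => γ.cb = b ∧ w ∈ A γ)).card :=
              card_biUnion_le
          _ ≤ ∑ w ∈ nb D.G v, 1 := sum_le_sum (fun w _ => one_group h b w)
          _ = D.d := by rw [sum_const, smul_eq_mul, mul_one, h.H.pc.reg]
    _ = B.card * D.d := by rw [sum_const, smul_eq_mul]
    _ ≤ D.d ^ 2 * D.d := Nat.mul_le_mul_right _ hB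
    _ = D.d ^ 3 := by ring

theorem d38 (h : Cx k c' D q A y) : D.d ^ 3 + (D.d + 2) ≤ D.d ^ 8 := by
  have h1 := d_big h
  have h2 : D.d + 2 ≤ D.d ^ 3 := by nlinarith [Nat.pow_le_pow_left h1 2]
  calc D.d ^ 3 + (D.d + 2) ≤ D.d ^ 3 + D.d ^ 3 := by omega
    _ = 2 * D.d ^ 3 := by ring
    _ ≤ D.d ^ 5 * D.d ^ 3 := by
        apply Nat.mul_le_mul_right
        calc 2 ≤ D.d := by omega
          _ = D.d ^ 1 := by ring
          _ ≤ D.d ^ 5 := Nat.pow_le_pow_right (by omega) (by norm_num)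
    _ = D.d ^ 8 := by ring

theorem wk_ne {n : Fin N} {v : V} (h : wk D n v ≠ 0) : ∃ u, u ∈ nb D.G v ∧ u ∈ pV D.X.P n := by
  unfold wk at h
  by_contra hc
  push_neg at hc
  apply h
  have : nb D.G v ∩ pV D.X.P n = ∅ := by
    ext u
    simp only [mem_inter, notMem_empty, iff_false, not_and]
    exact hc u
  rw [this]
  simp

end

theorem stmt_LCNT : Stmt_LCNT.{u} := by
  intro V _ N J k c' D q A y hk h
  refine ⟨A_le hk h, ?_, ?_, ?_⟩
  · intro γ
    have hsub : univ.filter (fun γ' => ∃ v ∈ A γ, ∃ w ∈ A γ', Bd D γ v γ' w ∨ Bd D γ' w γ v) ⊆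
        ((A γ).biUnion (fun v => (nb D.G v).biUnion (fun w =>
          univ.filter (fun γ' : Gm D => γ'.cb = γ.cb ∧ w ∈ A γ')))) ∪
        univ.filter (fun γ' : Gm D => γ'.pn = γ.pn ∧ γ'.sb = γ.sb ∧ γ'.qi = γ.qi) := by
      intro γ' hγ'
      rw [mem_filter] at hγ'
      obtain ⟨-, v, hv, w, hw, hb⟩ := hγ'
      rw [mem_union]
      have key : ∀ (_ : γ.cb = γ'.cb) (_ : Te D.G D.X v w),
          γ' ∈ (A γ).biUnion (fun v => (nb D.G v).biUnion (fun w =>
            univ.filter (fun γ' : Gm D => γ'.cb = γ.cb ∧ w ∈ A γ'))) := by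
        intro hc hT
        rw [mem_biUnion]
        refine ⟨v, hv, ?_⟩
        rw [mem_biUnion]
        refine ⟨w, ?_, ?_⟩
        · rw [mem_nb]; exact hT.1.1
        · rw [mem_filter]; exact ⟨mem_univ _, hc.symm, hw⟩
      rcases hb with hb | hb
      · rcases hb with hb | hb | hb
        · right
          rw [mem_filter]
          exact ⟨mem_univ _, hb.1.symm, hb.2.1.symm, hb.2.2.1.symm⟩
        · left; exact key hb.1 hb.2.1
        · left; exact key hb.1 hb.2.1
      · rcases hb with hb | hb | hb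
        · right
          rw [mem_filter]
          exact ⟨mem_univ _, hb.1, hb.2.1, hb.2.2.1⟩
        · left; exact key hb.1.symm (Te_symm hb.2.1)
        · left; exact key hb.1.symm (Te_symm hb.2.1)
    have h2 : (univ.filter (fun γ' : Gm D => γ'.pn = γ.pn ∧ γ'.sb = γ.sb ∧ γ'.qi = γ.qi)).card ≤
        D.d + 2 := by
      rw [← card_range (D.d + 2)]
      apply card_le_card_of_injOn (fun γ' : Gm D => γ'.cb)
      · intro γ' _
        simp only [coe_range, Set.mem_Iio]
        exact γ'.lt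
      · intro γ₁ h₁ γ₂ h₂ he
        rw [mem_coe, mem_filter] at h₁ h₂
        exact Gm.ext' (h₁.2.1.trans h₂.2.1.symm) (h₁.2.2.1.trans h₂.2.2.1.symm)
          (h₁.2.2.2.trans h₂.2.2.2.symm) he
    calc _ ≤ _ := card_le_card hsub
      _ ≤ _ := card_union_le _ _
      _ ≤ D.d ^ 3 + (D.d + 2) := Nat.add_le_add (two_step h γ.cb (A γ) (A_le hk h γ)) h2
      _ ≤ D.d ^ 8 := d38 h
  · intro n b
    have hsub : univ.filter (fun γ : Gm D => ∃ v ∈ A γ, (if γ.cb = b then wk D n v else 0) ≠ 0) ⊆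
        (pV D.X.P n).biUnion (fun v => (nb D.G v).biUnion (fun w =>
          univ.filter (fun γ' : Gm D => γ'.cb = b ∧ w ∈ A γ'))) := by
      intro γ hγ
      rw [mem_filter] at hγ
      obtain ⟨-, v, hv, hne⟩ := hγ
      by_cases hc : γ.cb = b
      · rw [if_pos hc] at hne
        obtain ⟨u, hu, hu'⟩ := wk_ne hne
        rw [mem_biUnion]
        refine ⟨u, hu', ?_⟩
        rw [mem_biUnion]
        refine ⟨v, ?_, ?_⟩
        · rw [mem_nb] at hu ⊢; exact hu.symm
        · rw [mem_filter]; exact ⟨mem_univ _, hc, hv⟩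
      · rw [if_neg hc] at hne
        exact absurd rfl hne
    calc _ ≤ _ := card_le_card hsub
      _ ≤ D.d ^ 3 := two_step h b _ (pV_le hk h n)
      _ ≤ D.d ^ 8 := by have := d38 h; omega
  · intro γ
    have hsub : univ.filter (fun κ : ULift.{u} (Fin N × Fin (D.d + 2)) => ∃ v ∈ A γ,
        (if γ.cb = κ.down.2.1 then wk D κ.down.1 v else 0) ≠ 0) ⊆
        (A γ).biUnion (fun v => (nb D.G v).image (fun u =>
          (ULift.up (D.X.P.pc u, ⟨γ.cb, γ.lt⟩) : ULift.{u} (Fin N × Fin (D.d + 2))))) := by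
      intro κ hκ
      rw [mem_filter] at hκ
      obtain ⟨-, v, hv, hne⟩ := hκ
      by_cases hc : γ.cb = κ.down.2.1
      · rw [if_pos hc] at hne
        obtain ⟨u, hu, hu'⟩ := wk_ne hne
        rw [mem_biUnion]
        refine ⟨v, hv, ?_⟩
        rw [mem_image]
        refine ⟨u, hu, ?_⟩
        rw [mem_pV] at hu'
        obtain ⟨⟨a, b⟩⟩ := κ
        apply congrArg ULift.up
        exact Prod.ext hu'.2 (Fin.ext hc)
      · rw [if_neg hc] at hne
        exact absurd rfl hne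
    calc _ ≤ _ := card_le_card hsub
      _ ≤ ∑ v ∈ A γ, ((nb D.G v).image (fun u =>
          (ULift.up (D.X.P.pc u, ⟨γ.cb, γ.lt⟩) : ULift.{u} (Fin N × Fin (D.d + 2))))).card :=
          card_biUnion_le
      _ ≤ ∑ v ∈ A γ, D.d := by
          apply sum_le_sum
          intro v _
          refine le_trans card_image_le ?_
          rw [h.H.pc.reg]
      _ = (A γ).card * D.d := by rw [sum_const, smul_eq_mul]
      _ ≤ D.d ^ 2 * D.d := Nat.mul_le_mul_right _ (A_le hk h γ)
      _ = D.d ^ 3 := by ring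
      _ ≤ D.d ^ 8 := by have := d38 h; omega

end Pool.Agent.Work.MP_db9399_oc_helper31
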